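import Pool.Agent.H479R3.RC10

/-!
The Helly space does not embed into the space of scatteredly continuous functions on the Baire
space.
-/

open Set Filter Topology

namespace Pool.Agent.Results.MP_36375e_gt.HellyNotInSC

open Pool.Agent.H479R3.RC

/-- `f : X → ℝ` is scatteredly continuous: for every nonempty `A ⊆ X` the restriction `f|A` has a
point of continuity. -/
def ScatteredlyContinuous {X : Type} [TopologicalSpace X] (f : X → ℝ) : Prop :=
  ∀ A : Set X, A.Nonempty → ∃ a ∈ A, ContinuousWithinAt f A a

/-- The unit interval. -/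
abbrev I : Type := Set.Icc (0 : ℝ) 1

/-- The Helly space: all non-decreasing functions `I → I`, as a subset of the power `I^I`. -/
def Helly : Set (I → I) := {f | Monotone f}

/-- A continuous injection of the Baire space into `(0, 1)`. -/
theorem exists_pi01 : ∃ p : (ℕ → ℕ) → ℝ, Continuous p ∧ Function.Injective p ∧
    ∀ y, 0 < p y ∧ p y < 1 := by
  obtain ⟨p, hp, hpi⟩ := exists_pi
  let h : ℝ → ℝ := fun s => (1 + s / (1 + |s|)) / 2
  have hpos : ∀ s : ℝ, 0 < 1 + |s| := fun s => by positivity
  have hlt : ∀ s : ℝ, -1 < s / (1 + |s|) ∧ s / (1 + |s|) < 1 := by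
    intro s
    constructor
    · rw [lt_div_iff₀ (hpos s)]
      have := neg_abs_le s
      linarith
    · rw [div_lt_iff₀ (hpos s)]
      have := le_abs_self s
      linarith
  have hinj : Function.Injective h := by
    intro s t hst
    have h1 : s / (1 + |s|) = t / (1 + |t|) := by
      simp only [h] at hst
      linarith
    rw [div_eq_div_iff (hpos s).ne' (hpos t).ne'] at h1
    rcases abs_cases s with ⟨hs, hs'⟩ | ⟨hs, hs'⟩ <;> rcases abs_cases t with ⟨ht, ht'⟩ | ⟨ht, ht'⟩ <;>
      rw [hs, ht] at h1 <;> nlinarith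
  refine ⟨fun y => h (p y), ?_, hinj.comp hpi, fun y => ?_⟩
  · have hc : Continuous h :=
      (continuous_const.add (continuous_id.div (continuous_const.add continuous_abs)
        fun s => (hpos s).ne')).div_const 2
    exact hc.comp hp
  · have := hlt (p y)
    simp only [h]
    constructor <;> linarith

/-- The restriction of a monotone function `ℝ → [0,1]` to a monotone function `I → I`. -/
def restr (g : Mon) : Helly :=
  ⟨fun s => ⟨g.1 s.1, g.2.2 s.1⟩, fun _ _ hst => g.2.1 hst⟩

theorem continuous_restr : Continuous restr := by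
  refine Continuous.subtype_mk (continuous_pi fun s => ?_) _
  exact Continuous.subtype_mk ((continuous_apply s.1).comp continuous_subtype_val) _

/-- No compact set of scatteredly continuous real-valued functions on the Baire space (with the
topology of pointwise convergence) is homeomorphic to the Helly space. -/
theorem result : ¬ ∃ T : Set ((ℕ → ℕ) → ℝ), IsCompact T ∧
    (∀ f ∈ T, ScatteredlyContinuous f) ∧ Nonempty (Helly ≃ₜ T) := by
  classical
  rintro ⟨T, hT, hTSC, ⟨φ⟩⟩
  obtain ⟨p, hpc, hpi, hp01⟩ := exists_pi01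
  let E : (ℕ → ℕ) → (ℝ → ℝ) → ℝ := fun y g =>
    if h : g ∈ Mon then (φ (restr ⟨g, h⟩) : (ℕ → ℕ) → ℝ) y else 0
  have hEval : ∀ g (hg : g ∈ Mon) y, E y g = (φ (restr ⟨g, hg⟩) : (ℕ → ℕ) → ℝ) y := by
    intro g hg y
    simp only [E, dif_pos hg]
  refine main_contra (E := E) ?_ ?_ hpc hpi ?_
  · intro y
    rw [continuousOn_iff_continuous_domRestrict]
    have h1 : Set.domRestrict Mon (E y) = fun g : Mon => (φ (restr g) : (ℕ → ℕ) → ℝ) y := by
      funext g
      exact hEval g g.2 y
    rw [h1]
    exact (continuous_apply y).comp (continuous_subtype_val.comp (φ.continuous.comp continuous_restr))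
  · intro g hg A hA
    have h1 : (fun y => E y g) = (φ (restr ⟨g, hg⟩) : (ℕ → ℕ) → ℝ) := by
      funext y
      exact hEval g hg y
    rw [h1]
    exact hTSC _ (φ (restr ⟨g, hg⟩)).2 A hA
  · intro y
    by_contra hno
    push Not at hno
    have m0 : st1 (p y) 1 0 ∈ Mon := st1_mem le_rfl zero_le_one
    have m1 : st1 (p y) 1 1 ∈ Mon := st1_mem zero_le_one le_rfl
    have h1 : φ (restr ⟨_, m0⟩) = φ (restr ⟨_, m1⟩) := by
      apply Subtype.ext
      funext a
      rw [← hEval _ m0 a, ← hEval _ m1 a]
      exact hno a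
    have h2 := congrArg Subtype.val (φ.injective h1)
    have h3 := congrArg Subtype.val (congrFun h2 ⟨p y, (hp01 y).1.le, (hp01 y).2.le⟩)
    simp [restr, st1] at h3

end Pool.Agent.Results.MP_36375e_gt.HellyNotInSC
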